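import Pool.Agent.Helper63.P705.NR.Asm
import Pool.Agent.Helper19.NR.GD
import Pool.Agent.Helper3.NR.GM
import Pool.Agent.Helper56.NR.GF
import Pool.Agent.Helper38.NR.GC
import Pool.Agent.Helper34.NR.GN
import Pool.Agent.Helper59.NR.GR
import Pool.Agent.Helper31.NR.GS
import Pool.Agent.Helper79.NR.GP
import Pool.Agent.Helper77.NR.GE
import Pool.Agent.Helper55.NR.GO1
import Pool.Agent.Helper67.NR.GO2
import Pool.Agent.Helper90.NR.GO3
import Pool.Agent.Helper5.NR.GO4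
import Pool.Agent.Helper32.NR.GV
import Pool.Agent.Helper49.NR.GK1
import Pool.Agent.Helper50.NR.GK2
import Pool.Agent.Helper9.NR.GK3
import Pool.Agent.Helper2.NR.GLo
import Pool.Agent.Helper16.NR.GT3
import Pool.Agent.Helper39.NR.GT2

/-!
# MP_705522_gt, `θ ∈ [0.49, 1/2)`: the result
-/

namespace Pool.Agent.Helper63.P705.NR

/-- For `0.49 ≤ θ < 1/2` every minimiser of `G θ` on the simplex is the centre of the simplex (or, for
`n = 2`, the same thing). -/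
theorem near (θ : ℝ) (ht0 : 0.49 ≤ θ) (ht1 : θ < 1 / 2) : Pool.Agent.Helper53.PT.GT θ :=
  gt_of Pool.Agent.Helper19.NR.gD Pool.Agent.Helper3.NR.gM Pool.Agent.Helper56.NR.gF
    Pool.Agent.Helper38.NR.gC Pool.Agent.Helper34.NR.gN Pool.Agent.Helper59.NR.gR
    Pool.Agent.Helper31.NR.gS (Pool.Agent.Helper79.NR.gP Pool.Agent.Helper56.NR.gF)
    Pool.Agent.Helper77.NR.gE Pool.Agent.Helper55.NR.gO1
    (Pool.Agent.Helper67.NR.gO2 Pool.Agent.Helper56.NR.gF) Pool.Agent.Helper90.NR.gO3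
    (Pool.Agent.Helper5.NR.gO4 Pool.Agent.Helper56.NR.gF) Pool.Agent.Helper32.NR.gV
    Pool.Agent.Helper49.NR.gK1 Pool.Agent.Helper50.NR.gK2 Pool.Agent.Helper9.NR.gK3
    Pool.Agent.Helper2.NR.gLo Pool.Agent.Helper16.NR.gT3 Pool.Agent.Helper39.NR.gT2 θ ht0 ht1

end Pool.Agent.Helper63.P705.NR
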