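import Pool.Agent.Helper63.P705.NR.Goals

/-!
# MP_705522_gt, `θ ∈ [0.49, 1/2)`: assembly from the goals
-/

namespace Pool.Agent.Helper63.P705.NR

open MeasureTheory Set Filter Topology
open Pool.Agent.Helper53.PT

theorem nf_of (hD : GD) (hM : GM) (hF : GF) (hC : GC) (hN : GN) (hR : GR) (hS : GS) (hP : GP)
    (hE : GE) (h1 : GO1) (h2 : GO2) (h3 : GO3) (h4 : GO4) (hV : GV)
    (θ : ℝ) (ht0 : 0.49 ≤ θ) (ht1 : θ < 1 / 2) : NF θ := by
  have m := hM hD
  have m' := hM hD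
  have f := hF hD hM
  have c := hC hD hM
  have nn := hN hD hM hC
  have r := hR hD hM hF
  have p := hP hD hM hC hN hR hS
  have o1 := h1 p
  have o2 := h2 hD hM hC hN hR hE (fun θ a b => ⟨(o1 θ a b).1, (o1 θ a b).2.2.1, (o1 θ a b).2.2.2.2.2.2⟩)
  obtain ⟨a1, a2, a3, a4, a5, a6, a7⟩ := o1 θ ht0 ht1
  obtain ⟨b1, b2, b3, b4, b5⟩ := h3 hE θ ht0 ht1 a2 a4 a7 (o2 θ ht0 ht1)
  have v := hV hD hM hF hC θ ht0 ht1
  exact
    { th0 := ht0
      th1 := ht1
      gnn := a4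
      gmono := a5
      eanti := a6
      g1 := fun u hu => (o2 θ ht0 ht1 u hu).1
      g2 := fun u hu => (o2 θ ht0 ht1 u hu).2
      glip := h4 hD hM hC hN hR θ ht0 ht1 a1 b1
      ppos := b1
      pup := a7
      elow := b2
      plow := b3
      pabs := b4
      psi1 := b5
      psi2 := fun u hu => (v u hu).1
      gam := fun u hu => (v u hu).2 }

theorem gt_of (hD : GD) (hM : GM) (hF : GF) (hC : GC) (hN : GN) (hR : GR) (hS : GS) (hP : GP)
    (hE : GE) (h1 : GO1) (h2 : GO2) (h3 : GO3) (h4 : GO4) (hV : GV) (k1 : GK1) (k2 : GK2) (k3 : GK3)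
    (hL : GLo) (t3 : GT3) (t2 : GT2) (θ : ℝ) (ht0 : 0.49 ≤ θ) (ht1 : θ < 1 / 2) :
    Pool.Agent.Helper53.PT.GT θ := by
  intro n hn t ht
  have hnf := nf_of hD hM hF hC hN hR hS hP hE h1 h2 h3 h4 hV θ ht0 ht1
  rcases Nat.lt_or_ge n 3 with h | h
  · have e : n = 2 := by omega
    subst e
    left
    intro i
    have := t2 θ (by linarith) ht1 t ht i
    simpa using this
  · left
    exact t3 k1 k2 k3 hL θ hnf n h t ht

end Pool.Agent.Helper63.P705.NR
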