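import Pool.Agent.Helper53.PT.DefsB

/-!
# MP_705522_gt: `θ ∈ [0.49, 1/2)` (the region near `p = 2`): definitions

`δ = 1 - 2θ ≤ 0.02`.  `Y` (law `nu θ` on `(0,∞)`, unit variance) has the density `ff = vf · zf`,
`zf y = sg⁻¹ exp(-κ θ y^(1/θ))`, `vf y = κ y^(1/θ-2)`, `zf' = - y ff`, and
`f0 θ (u²) = ∫ ff cos(uy)`, `f1 θ (u²) = ∫ zf cos(uy)`.  (At `θ = 1/2`: `vf = 1`, `f0 = f1 = e^(-x/2)`.)
`f1 = f0 + δ GG`, `GG' = Ga/2`, `RR = Ga + GG`.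
-/

namespace Pool.Agent.Helper63.P705.NR

open MeasureTheory Set Filter Topology
open Pool.Agent.Helper53.PT

/-- `δ = 1 - 2θ`. -/
noncomputable def de (θ : ℝ) : ℝ := 1 - 2 * θ

/-- `κ`. -/
noncomputable def kap (θ : ℝ) : ℝ :=
  1 / θ * (Real.Gamma (1 + θ) / Real.Gamma (1 - θ)) ^ (1 / (2 * θ))

noncomputable def zf (θ y : ℝ) : ℝ := 1 / sg θ * Real.exp (-(kap θ * θ * y ^ (1 / θ)))

noncomputable def vf (θ y : ℝ) : ℝ := kap θ * y ^ (1 / θ - 2)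

/-- the density of `nu θ` on `(0,∞)` -/
noncomputable def ff (θ y : ℝ) : ℝ := vf θ y * zf θ y

/-- `(y ff/δ) (vf + 1/vf - 2)`. -/
noncomputable def nf (θ y : ℝ) : ℝ := y * zf θ y * (vf θ y - 1) ^ 2 / de θ

noncomputable def GG (θ s : ℝ) : ℝ := (f1 θ s - f0 θ s) / de θ

noncomputable def Ga (θ s : ℝ) : ℝ := (2 * f2 θ s + f1 θ s) / de θ

noncomputable def RR (θ s : ℝ) : ℝ := (2 * f2 θ s + 2 * f1 θ s - f0 θ s) / de θ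

/-- `∫_0^w e^(-y²/2) dy`. -/
noncomputable def EE (w : ℝ) : ℝ := ∫ y in (0 : ℝ)..w, Real.exp (-(y ^ 2) / 2)

/-- `(integrand of K θ t i j)/δ`. -/
noncomputable def KJ (θ : ℝ) {n : ℕ} (t : Fin n → ℝ) (i j : Fin n) (ξ : ℝ) : ℝ :=
  (GG θ (t i * ξ ^ 2) * f0 θ (t j * ξ ^ 2) - f0 θ (t i * ξ ^ 2) * GG θ (t j * ξ ^ 2)) *
    ∏ l ∈ (Finset.univ.erase i).erase j, f0 θ (t l * ξ ^ 2)

/-- The facts about `f0, f1, GG` used in the main estimate. -/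
structure NF (θ : ℝ) : Prop where
  th0 : 0.49 ≤ θ
  th1 : θ < 1 / 2
  gnn : ∀ s, 0 ≤ s → 0 ≤ GG θ s
  gmono : MonotoneOn (fun s => GG θ s * Real.exp (s / 2)) (Ici 0)
  eanti : AntitoneOn (fun s => f0 θ s * Real.exp (s / 2)) (Ici 0)
  g1 : ∀ u, 0 ≤ u → GG θ (u ^ 2) ≤ 1.6
  g2 : ∀ u, 0 ≤ u → u * GG θ (u ^ 2) ≤ 3.32
  glip : ∀ s s', 0 ≤ s' → s' ≤ s → s ≤ 5.76 →
    0.92 * (s - s') ≤ GG θ s * Real.exp (s / 2) - GG θ s' * Real.exp (s' / 2)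
  ppos : ∀ s, 0 ≤ s → s ≤ 6.76 → 0 < f0 θ s
  pup : ∀ s, 0 ≤ s → f0 θ s ≤ Real.exp (-s / 2)
  elow : ∀ s, 0 ≤ s → 1 - 0.032 * (Real.exp (s / 2) - 1) ≤ f0 θ s * Real.exp (s / 2)
  plow : ∀ u, 0 < u → -(0.0963 / u) ≤ f0 θ (u ^ 2)
  pabs : ∀ u, 2.6 ≤ u → |f0 θ (u ^ 2)| ≤ 0.0963 / u
  psi1 : ∀ u, 0 < u → |f1 θ (u ^ 2)| ≤ Real.exp (-(u ^ 2) / 2) + 0.0963 / u
  psi2 : ∀ u, 0 < u → |f1 θ (u ^ 2)| ≤ 2.1 / u ^ 2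
  gam : ∀ u, 0 < u → |Ga θ (u ^ 2)| ≤ 16 / u ^ 2

end Pool.Agent.Helper63.P705.NR
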