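import Pool.Agent.Helper63.P705.NR.Defs

/-!
# MP_705522_gt: goals for `θ ∈ [0.49, 1/2)`

`Helper53.PT.A` has (without hypotheses) `aMO, mo_mono, hasDerivAt_f0, hasDerivAt_f1, aLAW, aBD, aDER, aPAIR`.
Notation of the docstrings: `δ = de θ`, `q = 1/θ`, `p = q - 2 = δ/θ`, `κ = kap θ`, `C = 1/sg θ`,
`z = zf θ`, `f = ff θ = v z`, `v = vf θ = κ y^p`, `φ(u) = f0 θ (u²)`, `ψ(u) = f1 θ (u²)`.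
-/

namespace Pool.Agent.Helper63.P705.NR

open MeasureTheory Set Filter Topology
open Pool.Agent.Helper53.PT

/-- (D) density.  `nu θ` is the image of `muZ q` (density `y^(q-2) e^(-y^q)/Zd q` on `(0,∞)`) under
`y ↦ r y`, `r = q Zd q/sg θ`; `Zd q = ∫_0^∞ y^(q-2) e^(-y^q) = θ Γ(1-θ)` (`integral_rpow_mul_exp_neg_rpow`),
so `r = Γ(1-θ)/sg θ = (Γ(1-θ)/Γ(1+θ))^(1/2)` and `r^(-q) = θ κ`.  The image has the density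
`r⁻¹ (y/r)^(q-2) e^(-(y/r)^q)/(θ Γ(1-θ)) = κ y^(q-2) C e^(-κθ y^q)`.  (`integral_withDensity_eq_integral_smul`,
`integrable_withDensity_iff_integrable_smul`, `MeasurableEquiv` for the scaling,
`integral_comp_mul_left_Ioi`; compare `Helper93.PT.CX`, `Helper88.NO.D12`.)  Derivatives: `κθ·(1/θ) = κ`. -/
def GD : Prop := ∀ θ : ℝ, 0 < θ → θ < 1 / 2 →
  0 < kap θ ∧ 0 < sg θ ∧ Continuous (zf θ) ∧ (∀ y, 0 ≤ y → 0 < zf θ y ∧ zf θ y ≤ 1 / sg θ) ∧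
  (∀ y, 0 < y → HasDerivAt (zf θ) (-(y * ff θ y)) y) ∧
  (∀ y, 0 < y → HasDerivAt (ff θ) ((1 / θ - 2) * ff θ y / y - y * vf θ y * ff θ y) y) ∧
  (∀ a : ℝ, -1 < a → IntegrableOn (fun y => y ^ a * zf θ y) (Ioi 0)) ∧
  (∀ H : ℝ → ℝ, (Integrable H (nu θ) ↔ IntegrableOn (fun y => ff θ y * H y) (Ioi 0)) ∧
    ∫ y, H y ∂(nu θ) = ∫ y in Ioi (0 : ℝ), ff θ y * H y)

/-- (M) moments.  `aLAW` and `GD` give the moments of `ff`; `∫ y^k z = (1/(k+1)) ∫ y^(k+2) f` (by parts,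
`z' = -y f`), `∫ y f = z(0) - z(∞) = C`. -/
def GM : Prop := GD → ∀ θ : ℝ, 0 < θ → θ < 1 / 2 →
  ∫ y in Ioi (0 : ℝ), zf θ y = 1 ∧ ∫ y in Ioi (0 : ℝ), y * zf θ y = m3 θ / 2 ∧
  ∫ y in Ioi (0 : ℝ), y ^ 2 * zf θ y = mo θ 2 / 3 ∧
  ∫ y in Ioi (0 : ℝ), ff θ y = 1 ∧ ∫ y in Ioi (0 : ℝ), y * ff θ y = 1 / sg θ ∧
  ∫ y in Ioi (0 : ℝ), y ^ 2 * ff θ y = 1 ∧ ∫ y in Ioi (0 : ℝ), y ^ 3 * ff θ y = m3 θ ∧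
  ∫ y in Ioi (0 : ℝ), y ^ 4 * ff θ y = mo θ 2

/-- (F) Fourier representations.  `f0`: `aLAW`.  `u f1(u²) = ∫ y² u sinc(uy) dν = ∫ y f sin(uy)` (`aLAW`), and by
parts (`z' = -y f`) this is `u ∫ z cos(uy)` (for `u = 0` use `f1 θ 0 = 1 = ∫ z`).  The last one is the derivative of
`f1 θ (u²) = ∫ z cos(uy)` (`hasDerivAt_f1`, differentiation under the integral sign). -/
def GF : Prop := GD → GM → ∀ θ : ℝ, 0 < θ → θ < 1 / 2 → ∀ u : ℝ,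
  f0 θ (u ^ 2) = ∫ y in Ioi (0 : ℝ), ff θ y * Real.cos (u * y) ∧
  f1 θ (u ^ 2) = ∫ y in Ioi (0 : ℝ), zf θ y * Real.cos (u * y) ∧
  u * f1 θ (u ^ 2) = ∫ y in Ioi (0 : ℝ), y * ff θ y * Real.sin (u * y) ∧
  2 * u * f2 θ (u ^ 2) = -∫ y in Ioi (0 : ℝ), y * zf θ y * Real.sin (u * y)

/-- (C) constants.  `sg θ ^ 2 = Γ(1+θ) Γ(1-θ) = πθ/sin(πθ)` (`Real.Gamma_mul_Gamma_one_sub`), so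
`C² = sin(πθ)/(πθ)`, `cos(π/100) ≤ sin(πθ) ≤ 1`, `.49π ≤ πθ ≤ π/2`: `C² ∈ [.6363, .64962]`.
`mo θ 2 ≤ mo (1/2) 2 = 3` (`mo_mono`, `aMO`), `m3 ≤ (∫y²f)^(1/2) (∫y⁴f)^(1/2) ≤ √3`
(or `y³ ≤ (√3 y² + y⁴/√3)/2`).  `κ ∫ y^p z = ∫ f = 1`.  `κ ≥ 1`: `y^p ≤ (p/2) y² + 1 - p/2`, `∫ y² z ≤ 1`.
Upper bound: `y^p = e^(-.806p) e^(p log y + .806p) ≥ e^(-.806p) (1 + p log y + .806 p)`, and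
`∫ z log y ≥ ∫_0^1 z log y ≥ C ∫_0^1 log y = -C ≥ -.806`. -/
def GC : Prop := GD → GM → ∀ θ : ℝ, 0.49 ≤ θ → θ < 1 / 2 →
  0.797 ≤ 1 / sg θ ∧ 1 / sg θ ≤ 0.806 ∧ 1 ≤ kap θ ∧ kap θ ≤ Real.exp (0.806 * (1 / θ - 2)) ∧
  mo θ 2 ≤ 3 ∧ m3 θ ≤ 1.7321

/-- (N) the function `nf`.  `Λ := κ^(1/p) ∈ [1, e^.806]` (`e^.806 ≤ 2.239`), `v = (Λy)^p`.
`v + 1/v - 2 ≤ p² (Λy + 1/(Λy) - 2)` (with `L = log(Λy)`: `4 sinh²(pL/2) ≤ p² 4 sinh²(L/2)`, convexity of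
`sinh` on `[0,∞)`, `0 < p ≤ 1`).  `δ nf = y f (v + 1/v - 2) ≤ p² f (Λy² + 1/Λ - 2y)`, integral
`≤ p² (Λ + 1/Λ - 2C) ≤ 1.092 p²`; `δ y nf` has integral `≤ p² (Λ m3 + C/Λ - 2) ≤ 2.239 p²`
(`Λ + 1/Λ` and `1.7321 Λ + .806/Λ` are increasing on `[1,∞)`); `p² = δ²/θ² ≤ 4.165 δ²`.
Last: `nf' = (z (v-1)² - y² f (v-1)² + 2p f (v-1))/δ`, with `(v-1)² ≤ 1 + v²`, `v² ≤ κ² (1 + y²)`,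
`v ≤ κ (1 + y²)`, `κ ≤ 1.034`: `∫ |nf'| ≤ (1 + 2κ² + 1 + 4κ² + 2p (1 + 2κ))/δ ≤ 9/δ`; integrate by parts
(`nf → 0` at `0` and at `∞`). -/
def GN : Prop := GD → GM → GC → ∀ θ : ℝ, 0.49 ≤ θ → θ < 1 / 2 →
  (∀ y, 0 < y → 0 ≤ nf θ y) ∧ IntegrableOn (nf θ) (Ioi 0) ∧ IntegrableOn (fun y => y * nf θ y) (Ioi 0) ∧
  ∫ y in Ioi (0 : ℝ), nf θ y ≤ 4.6 * de θ ∧ ∫ y in Ioi (0 : ℝ), y * nf θ y ≤ 9.4 * de θ ∧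
  ∀ u, 0 < u → |∫ y in Ioi (0 : ℝ), nf θ y * Real.sin (u * y)| ≤ 9 / (de θ * u)

/-- (R) the identity for `RR`.  By `GF`,
`u δ RR(u²) = 2u f2 + 2u f1 - u f0 = ∫ (-y z + 2 y f) sin(uy) - u ∫ f cos(uy)`, and
`-u ∫ f cos(uy) = ∫ f' sin(uy)` (by parts: `f(0+) = 0` because `p > 0`), `f' = p f/y - y v f`.
`-y z + 2 y f - y v f = -y z (v-1)² = -δ nf`, `p = δ/θ`.  Second statement: `sin(uy)/(uy) = ∫_0^1 cos(τuy) dτ`,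
Fubini. -/
def GR : Prop := GD → GM → GF → ∀ θ : ℝ, 0.49 ≤ θ → θ < 1 / 2 → ∀ u, 0 < u →
  IntegrableOn (fun y => ff θ y / (θ * y)) (Ioi 0) ∧
  u * RR θ (u ^ 2) = (∫ y in Ioi (0 : ℝ), ff θ y / (θ * y) * Real.sin (u * y)) -
    ∫ y in Ioi (0 : ℝ), nf θ y * Real.sin (u * y) ∧
  ∫ y in Ioi (0 : ℝ), ff θ y / (θ * y) * Real.sin (u * y) = u / θ * ∫ τ in (0 : ℝ)..1, f0 θ ((τ * u) ^ 2)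

/-- (S) Decreasing functions.  `∫_0^∞ h sin(uy) = ∑_k ∫_0^(π/u) (h(y + 2kπ/u) - h(y + (2k+1)π/u)) sin(uy) dy`,
every term is nonnegative. -/
def GS : Prop := ∀ h : ℝ → ℝ, AntitoneOn h (Ioi 0) → (∀ y, 0 < y → 0 ≤ h y) → IntegrableOn h (Ioi 0) →
  ∀ u : ℝ, 0 < u → ∫ y in (0 : ℝ)..(Real.pi / u), (h y - h (y + Real.pi / u)) * Real.sin (u * y) ≤
    ∫ y in Ioi (0 : ℝ), h y * Real.sin (u * y)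

/-- (P) `RR > 0`.
`u ≤ 2`: by `GR` and `GN` (`|sin(uy)| ≤ uy`), `RR(u²) ≥ q ∫_0^1 (1 - τ²u²/2) dτ - 9.4 δ ≥ 2 (1 - 4/6) - .188 > 0`
(`aBD`: `f0 θ x ≥ 1 - x/2`).
`u ≥ 2`: `h = f/(θy) = q κ y^(p-1) z` is decreasing (`p < 1`), and for `0 < y < π/u`:
`h(y) - h(y+π/u) ≥ q κ z(π/u) (y^(p-1) - (y+π/u)^(p-1)) ≥ q κ z(π/u) (1 - 2^(p-1)) y^(p-1)`
(`y + π/u ≥ 2y`), so with `GS` and `x = uy`: `∫ h sin(uy) ≥ q κ z(π/u) u^(-p) J`,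
`J = (1 - 2^(p-1)) ∫_0^π x^(p-1) sin x dx ≥ .485 (∫_0^1 sin x dx + (1/π) ∫_1^π sin x dx) ≥ .46`
(`x^(p-1) ≥ 1` on `(0,1]`, `≥ 1/x ≥ 1/π` on `[1,π]`; `p ≤ .0409`).
`u ≤ δ^(-2)`: `u^(-p) ≥ δ^(2p) ≥ .72`, because `2p log(1/δ) ≤ 4.082 δ log(1/δ) ≤ 4.082·.02·log 50 ≤ .32`
(`log(1/δ) ≤ log 50 + .02/δ - 1`).  `z(π/2) = C exp(-κθ(π/2)^q) ≥ .797 e^(-1.31) ≥ .215` (`κ ≤ 1.034`,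
`(π/2)^q ≤ 2.52`, `θ ≤ 1/2`).  So `u RR ≥ 2·.215·.72·.46 - 4.6 δ ≥ .142 - .092 > 0`.
`u ≥ δ^(-2)` (`≥ 2500`): `u^(1-p) ≥ δ^(-2) δ^(2p) ≥ .72 δ^(-2)`, `z(π/u) ≥ .79`, so
`u² RR ≥ 2·.79·.46·.72 δ^(-2) - 9 δ^(-1) ≥ .52 δ^(-2) - .18 δ^(-2) > 0`. -/
def GP : Prop := GD → GM → GC → GN → GR → GS → ∀ θ : ℝ, 0.49 ≤ θ → θ < 1 / 2 → ∀ u, 0 < u →
  0 < RR θ (u ^ 2)

/-- (E) Gaussian integrals, pure calculus.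
(1) `D(u) = e^(-u²/2) ∫_0^u e^(w²/2) dw`: `D' + uD = 1`; `u D ≤ 1.45` (true maximum `1.285`).
`u ≤ 1.606`: `u² - w² ≥ u (u - w)` gives `uD ≤ 2 (1 - e^(-u²/2)) ≤ 1.45`.
`1 ≤ u`: `D(u) ≤ e^(-x) D(1) + (2/(u+1)) (1 - e^(-x))`, `x = (u²-1)/2` (`u²-w² ≥ (u+1)(u-w)` for `w ≥ 1`), `D(1) ≤ .787`:
`≤ 1.45/u` for `u ≤ 1.8`.  `u ≥ 1.8`: `1.45/u` is a supersolution (`1.45 (1 - 1/u²) ≥ 1`; i.e.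
`e^(u²/2) 1.45/u - ∫_0^u e^(w²/2)` is nondecreasing).
(2) `G0(u) = 2 e^(-u²/2) ∫_0^u e^(w²/2) EE(w) dw`: `G0' + u G0 = 2 EE`.  `EE(w) ≤` its Taylor polynomial of degree
`9`; with `s = u²`, `B = s - s²/3 + b3 s³ - b4 s⁴ + b5 s⁵`, `b3 = 23/360`, `b4 = .00873`, `b5 = .000932` (chosen such that
`2 B'(s) + B ≥ 2 (1 - s/6 + s²/40 - s³/336 + s⁴/3456)` for `s ≥ 0`; round the exact values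
`b4 = (b3 + 1/168)/8`, `b5 = (b4 + 1/1728)/10`), `B` is a supersolution, `G0 ≤ B`; `B` is increasing, `B(3.3) ≤ 1.30`.
For `u² ≥ 3.3`: `1.38 u ≥ √(2π) ≥ 2 EE`, so `1.38` is a supersolution.
(3) `u G0 ≤ 3.12`: for `u ≤ 3.12/1.38` by (2); for larger `u`, `3.12/u` is a supersolution
(`3.12 - 3.12/u² ≥ 3.12 - .611 ≥ 2.507 ≥ 2 EE`). -/
def GE : Prop := (∀ w, 0 ≤ w → EE w ≤ w) ∧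
  (∀ u, 0 ≤ u → u * ∫ w in (0 : ℝ)..u, Real.exp (w ^ 2 / 2) ≤ 1.45 * Real.exp (u ^ 2 / 2)) ∧
  (∀ u, 0 ≤ u → 2 * ∫ w in (0 : ℝ)..u, Real.exp (w ^ 2 / 2) * EE w ≤ 1.38 * Real.exp (u ^ 2 / 2)) ∧
  (∀ u, 0 ≤ u → u * (2 * ∫ w in (0 : ℝ)..u, Real.exp (w ^ 2 / 2) * EE w) ≤ 3.12 * Real.exp (u ^ 2 / 2))

/-- (O1) consequences of `RR > 0`.  `(GG e^(s/2))' = e^(s/2) (Ga + GG)/2 = e^(s/2) RR/2`, `GG(0) = 0`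
(`f0 0 = f1 0 = 1`), `(f0 e^(s/2))' = e^(s/2) (f0 - f1)/2 = -(δ/2) GG e^(s/2)`, `f0 0 = 1`. -/
def GO1 : Prop := (∀ θ : ℝ, 0.49 ≤ θ → θ < 1 / 2 → ∀ u, 0 < u → 0 < RR θ (u ^ 2)) →
  ∀ θ : ℝ, 0.49 ≤ θ → θ < 1 / 2 →
  (∀ s, HasDerivAt (fun s => GG θ s * Real.exp (s / 2)) (RR θ s * Real.exp (s / 2) / 2) s) ∧
  (∀ s, HasDerivAt (fun s => f0 θ s * Real.exp (s / 2)) (-(de θ / 2) * (GG θ s * Real.exp (s / 2))) s) ∧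
  GG θ 0 = 0 ∧ (∀ s, 0 ≤ s → 0 ≤ GG θ s) ∧
  MonotoneOn (fun s => GG θ s * Real.exp (s / 2)) (Ici 0) ∧
  AntitoneOn (fun s => f0 θ s * Real.exp (s / 2)) (Ici 0) ∧
  (∀ s, 0 ≤ s → f0 θ s ≤ Real.exp (-s / 2))

/-- (O2) upper bounds of `GG`.  By `GR`, `GN`: `RR(u²) ≤ q ∫_0^1 e^(-τ²u²/2) dτ + |E2| = q EE(u)/u + |E2|`,
`|E2| ≤ min(9.4 δ, 4.6 δ/u) ≤ min(.188, .092/u)`.  With `w² = s`: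
`GG(u²) e^(u²/2) = ∫_0^u w e^(w²/2) RR(w²) dw ≤ q ∫_0^u e^(w²/2) EE(w) dw + ∫_0^u e^(w²/2) min(.188 w, .092) dw`
(`GO1`).  With `GE`, `q ≤ 2.0409`: `GG(u²) ≤ (q/2) 1.38 + .188 ≤ 1.6`, and
`u GG(u²) ≤ (q/2) 3.12 + .092·1.45 ≤ 3.1837 + .1334 ≤ 3.32`. -/
def GO2 : Prop := GD → GM → GC → GN → GR → GE →
  (∀ θ : ℝ, 0.49 ≤ θ → θ < 1 / 2 →
    (∀ s, HasDerivAt (fun s => GG θ s * Real.exp (s / 2)) (RR θ s * Real.exp (s / 2) / 2) s) ∧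
    GG θ 0 = 0 ∧ (∀ s, 0 ≤ s → f0 θ s ≤ Real.exp (-s / 2))) →
  ∀ θ : ℝ, 0.49 ≤ θ → θ < 1 / 2 → ∀ u, 0 ≤ u → GG θ (u ^ 2) ≤ 1.6 ∧ u * GG θ (u ^ 2) ≤ 3.32

/-- (O3) consequences for `f0, f1` (`δ ≤ .02`).  `f0(s) e^(s/2) = 1 - (δ/2) ∫_0^s GG e^(s'/2) ds' ≥ 1 - 1.6 δ (e^(s/2) - 1)`;
at `s ≤ 6.76`: `.032 (e^3.38 - 1) ≤ .909`.  `f0(u²) e^(u²/2) = 1 - δ ∫_0^u w GG(w²) e^(w²/2) dw ≥ 1 - 3.32 δ ∫_0^u e^(w²/2) dw`,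
so `f0(u²) ≥ -3.32·.02·1.45/u = -.09628/u` (`GE`).  For `u ≥ 2.6`: `e^(-u²/2) ≤ .0963/u` (`u e^(-u²/2)` is decreasing
for `u ≥ 1`, value `.0886` at `2.6`).  `f1 = f0 + δ GG`: `-.0963/u ≤ f0 ≤ f1 ≤ e^(-u²/2) + .0664/u`. -/
def GO3 : Prop := GE → ∀ θ : ℝ, 0.49 ≤ θ → θ < 1 / 2 →
  (∀ s, HasDerivAt (fun s => f0 θ s * Real.exp (s / 2)) (-(de θ / 2) * (GG θ s * Real.exp (s / 2))) s) →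
  (∀ s, 0 ≤ s → 0 ≤ GG θ s) → (∀ s, 0 ≤ s → f0 θ s ≤ Real.exp (-s / 2)) →
  (∀ u, 0 ≤ u → GG θ (u ^ 2) ≤ 1.6 ∧ u * GG θ (u ^ 2) ≤ 3.32) →
  (∀ s, 0 ≤ s → s ≤ 6.76 → 0 < f0 θ s) ∧
  (∀ s, 0 ≤ s → 1 - 0.032 * (Real.exp (s / 2) - 1) ≤ f0 θ s * Real.exp (s / 2)) ∧
  (∀ u, 0 < u → -(0.0963 / u) ≤ f0 θ (u ^ 2)) ∧
  (∀ u, 2.6 ≤ u → |f0 θ (u ^ 2)| ≤ 0.0963 / u) ∧
  (∀ u, 0 < u → |f1 θ (u ^ 2)| ≤ Real.exp (-(u ^ 2) / 2) + 0.0963 / u)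

/-- (O4) lower bound of `(GG e^(s/2))' = e^(s/2) RR/2 ≥ .92` for `0 ≤ s ≤ 5.76`.  By `GR`, `GN`:
`RR(u²) ≥ q ∫_0^1 f0((τu)²) dτ - 9.4 δ`, `q = 2/(1-δ) ≥ 2 + 2δ`, `f0(x) ≥ max(0, 1 - x/2)` for `x ≤ 6.76`.
`s = u² ≤ 2`: `RR ≥ q (1 - s/6) - 9.4 δ ≥ 2 - 7.4 δ - q s/6 ≥ 1.852 - .3402 s`, `e^(s/2) ≥ 1 + s/2`:
`(1 + s/2)(1.852 - .3402 s)/2 = .926 + .2929 s - .08505 s² ≥ .92` on `[0,2]`.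
`√2 ≤ u ≤ 2.4`: `∫_0^1 f0((τu)²) dτ ≥ (1/u) ∫_0^√2 (1 - w²/2) dw = .9428/u`, `RR ≥ 1.8856/u - .188`; for `u ≤ 1.8`:
`≥ .859`, `e^(s/2) ≥ e`, product `/2 ≥ 1.16`; for `1.8 ≤ u ≤ 2.4`: `≥ .597`, `e^(s/2) ≥ e^1.62 ≥ 5`, product `/2 ≥ 1.49`. -/
def GO4 : Prop := GD → GM → GC → GN → GR →
  ∀ θ : ℝ, 0.49 ≤ θ → θ < 1 / 2 →
  (∀ s, HasDerivAt (fun s => GG θ s * Real.exp (s / 2)) (RR θ s * Real.exp (s / 2) / 2) s) →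
  (∀ s, 0 ≤ s → s ≤ 6.76 → 0 < f0 θ s) →
  ∀ s s', 0 ≤ s' → s' ≤ s → s ≤ 5.76 →
    0.92 * (s - s') ≤ GG θ s * Real.exp (s / 2) - GG θ s' * Real.exp (s' / 2)

/-- (V) bounds by the total variation.
`psi2`: `u ψ = ∫ k sin(uy)`, `k = y f` (`GF`), `k(0+) = k(∞) = 0`, `k' = f (1 + p - y² v)`: `u² |ψ| ≤ ∫ |k'| ≤ (1+p) + ∫ y² v f`
and `∫ k' = 0` gives `∫ y² v f = 1 + p`; total `2 (1+p) ≤ 2.082`.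
`gam`: `u δ Ga(u²) = 2u f2 + u f1 = ∫ y z (v-1) sin(uy)` (`GF`), `h = y z (v-1)`, `h(0+) = h(∞) = 0`,
`h' = z (v-1) - y² f (v-1) + p f`.  `|v - 1| ≤ p (Λy + log⁺(1/y))` (`Λ = κ^(1/p) ∈ [1,2.239]`, `v = (Λy)^p`;
`v ≥ 1`: `e^(pL) - 1 ≤ p (e^L - 1)`; `v ≤ 1`: `1 - e^(pL) ≤ p |L| ≤ p log(1/y)`).  So
`∫ |h'| ≤ p (Λ m3/2 + C) + p (Λ m3 + κC/9) + p ≤ p (1.94 + .806 + 3.879 + .093 + 1) ≤ 7.72 p`, and `p/δ = q ≤ 2.041`: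
`u² |Ga| ≤ 15.8`. -/
def GV : Prop := GD → GM → GF → GC → ∀ θ : ℝ, 0.49 ≤ θ → θ < 1 / 2 → ∀ u, 0 < u →
  |f1 θ (u ^ 2)| ≤ 2.1 / u ^ 2 ∧ |Ga θ (u ^ 2)| ≤ 16 / u ^ 2

/-- (K1) main part.  `a = t i` (maximal), `b = t j` (minimal); `t_l ≤ 1/2` for `l ≠ i`.  `s_a = aξ²`, `s_b = bξ²`.
If `f0(t_l ξ²) > 0` for all `l ≠ i`: `f0(s_a) ≤ e^(-(s_a-s_b)/2) f0(s_b)` (`eanti`), `GG ≥ 0`, so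
`GG(s_a) f0(s_b) - f0(s_a) GG(s_b) ≥ f0(s_b) e^(-s_a/2) (g(s_a) - g(s_b)) ≥ 0`, `g = GG e^(s/2)` (`gmono`).
For `ξ ≤ 2.4`: `g(s_a) - g(s_b) ≥ .92 (a-b) ξ²`, and `f0(t_l ξ²) ≥ e^(-t_l ξ²/2) (1 - .032 (e^(t_l ξ²/2) - 1))`,
`∏_{l≠i} (1 - x_l) ≥ 1 - ∑ x_l`, `e^(t ξ²/2) - 1 ≤ 2t (e^(ξ²/4) - 1)` for `t ≤ 1/2` (convexity), `∑_{l≠i} t_l ≤ 1`:
`1 - .064 (e^1.44 - 1) ≥ .79`. (`t_l ξ² ≤ 2.88` for `l ≠ i`, so every factor is in `[0,1]`.) -/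
def GK1 : Prop := ∀ θ : ℝ, NF θ → ∀ (n : ℕ) (t : Fin n → ℝ), Sx t → ∀ i j : Fin n,
  (∀ l, t l ≤ t i) → (∀ l, t j ≤ t l) → t j < t i → ∀ ξ : ℝ, 0 ≤ ξ →
  ((∀ l, l ≠ i → t l * ξ ^ 2 ≤ 6.76) → 0 ≤ KJ θ t i j ξ) ∧
  (ξ ≤ 2.4 → (t i - t j) * (0.92 * 0.79) * (ξ ^ 2 * Real.exp (-(ξ ^ 2) / 2)) ≤ KJ θ t i j ξ)

/-- (K2) tail, `b ≤ .8 a`.  `c = t m` is the largest coordinate other than `a = t i`, `b = t j`; `ξ ≥ 2.6/√c`,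
`v = √c ξ ≥ 2.6`, `√a ξ ≥ v`.
`|f0(bξ²)| ≤ (a-b)/a = 1 - x` (`x = b/a ≤ .8`): if `bξ² ≤ 6.76`: `0 < f0(bξ²) ≤ e^(-bξ²/2) ≤ e^(-3.38 x) ≤ 1 - x` (`aξ² ≥ 6.76`;
convexity: true at `x = 0` and `x = .8`); else `|f0| ≤ .0963/2.6 ≤ .2`.  `1 ≤ 5 (a-b)/a`.  With `GG(aξ²) ≤ 3.32/(√a ξ)`,
`GG(bξ²) ≤ 1.6`, `|f0(aξ²)| ≤ .0963/(√a ξ)`: `|KJ| ≤ ((a-b)/a) (3.32 + .7704)/(√a ξ) · |∏|`.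
`|∏_{l≠i,j} f0(t_l ξ²)| ≤ τ^(R/c)`, `τ = .0963/v`, `R = 1 - a - b`: for each `l`, `|f0(t_l ξ²)| ≤ τ^(t_l/c)`: with `w = √t_l ξ ≤ v`,
if `w ≤ 2.6` then `0 < f0 ≤ e^(-w²/2) = (e^(-v²/2))^(w²/v²)` and `e^(-v²/2) ≤ .0963/v`; if `w ≥ 2.6`, `|f0| ≤ .0963/w` and
`log(x/.0963)/x²` is decreasing for `x ≥ 2.6`.
`R/c ≥ 1`, `R/c ≥ 1/a - 1.8`; so `τ^(R/c) ≤ τ τ0^max(0, 1/a - 2.8)`, `τ0 = .0963/2.6 < e^(-1)`.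
`∫ (1/(√aξ)) (.0963/(√cξ)) dξ` over `(2.6/√c, ∞)` is `.0963/(2.6 √a)`; total
`(a-b) 4.0904·.03704·a^(-3/2) τ0^max(0,1/a-2.8) ≤ (a-b)·.1516·2.8^(3/2) ≤ .711 (a-b)`. -/
def GK2 : Prop := ∀ θ : ℝ, NF θ → ∀ (n : ℕ) (t : Fin n → ℝ), Sx t → ∀ i j m : Fin n,
  (∀ l, t l ≤ t i) → (∀ l, t j ≤ t l) → m ≠ i → m ≠ j → (∀ l, l ≠ i → t l ≤ t m) →
  0 < t m → t j ≤ 0.8 * t i → IntegrableOn (KJ θ t i j) (Ioi (2.6 / √(t m))) →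
  -(0.72 * (t i - t j)) ≤ ∫ ξ in Ioi (2.6 / √(t m)), KJ θ t i j ξ

/-- (K3) tail, `b ≥ .8 a`.  All coordinates are in `[.8a, a]`, `1/n ≤ a`, `n ≥ 3`.  `c = t m`, `ξ ≥ 2.6/√c`, `v = √a ξ ≥ 2.6`,
`√t_l ξ ∈ [√.8 v, v]`.  `GG(s_a) f0(s_b) - f0(s_a) GG(s_b) = GG(s_a) (f0(s_b) - f0(s_a)) + f0(s_a) (GG(s_a) - GG(s_b))`,
`f0' = -f1/2`, `GG' = Ga/2` (mean value inequality): `≤ (a-b) (ξ²/2) (ψ* GG(s_a) + Γ* |f0(s_a)|)` with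
`ψ* ≤ min(e^(-.4v²) + .10767/v, 2.625/v²)`, `Γ* ≤ 20/v²`, `GG(s_a) ≤ 3.32/v`, `|f0(s_a)| ≤ .0963/v`
(`.0963/√.8 ≤ .10767`).  Product: `|f0(cξ²)| ≤ .0963/(√c ξ) ≤ .10767/v`, each of the other `n - 3` factors is
`≤ max(e^(-w²/2), .0963/w) ≤ .067` (`w ≥ √.8·2.6`).  With `dξ = dv/√a`:
`∫ |KJ| ≤ (a-b) a^(-3/2) .067^(n-3) (1/2) ∫_{2.6}^∞ (3.32·.10767 ψ* + 20·.0963·.10767/v²) dv`,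
`∫ ψ* ≤ e^(-2.704)/2.08 + .10767 log 9 + 2.625/23.4 ≤ .381` (split at `23.4`), so the bound is
`(a-b) a^(-3/2) .067^(n-3)·.1082`, and `a^(-3/2) ≤ n^(3/2)`, `n^(3/2) .067^(n-3) ≤ 3^(3/2) ≤ 5.1962`; total `≤ .5623 (a-b)`. -/
def GK3 : Prop := ∀ θ : ℝ, NF θ → ∀ (n : ℕ) (t : Fin n → ℝ), Sx t → ∀ i j m : Fin n,
  (∀ l, t l ≤ t i) → (∀ l, t j ≤ t l) → i ≠ j → m ≠ i → m ≠ j → (∀ l, l ≠ i → t l ≤ t m) →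
  0 < t m → 0.8 * t i ≤ t j → IntegrableOn (KJ θ t i j) (Ioi (2.6 / √(t m))) →
  -(0.72 * (t i - t j)) ≤ ∫ ξ in Ioi (2.6 / √(t m)), KJ θ t i j ξ

/-- (L) `∫_0^2.4 ξ² e^(-ξ²/2) dξ = EE(2.4) - 2.4 e^(-2.88) ≥ 1.09` (`EE(2.4) ≥ √(π/2) - e^(-2.88)/2.4 ≥ 1.2299`). -/
def GLo : Prop := 1.09 ≤ ∫ ξ in (0 : ℝ)..2.4, ξ ^ 2 * Real.exp (-(ξ ^ 2) / 2)

/-- (T) assembly for `n ≥ 3`.  `t` a minimiser which is not constant: `i` = position of the maximum, `j` of the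
minimum, `t j < t i`; `aDER`: the integrand of `K θ t i j` is integrable and `K ≤ 0`; this integrand is `δ KJ`.
If all other coordinates vanish (`t i = 1`, `t j = 0`), `KJ ≥ 0` on `(0,∞)` (`GK1`); otherwise `m` = the largest coordinate
other than `i, j` (`t m > 0`), `KJ ≥ 0` on `(0, 2.6/√(t m))`, and the tail is `≥ -.72 (a-b)` (`GK2` or `GK3`).  `2.6/√(t m) ≥ 2.4`
since `t m ≤ 1/2`.  So `∫ KJ ≥ (a-b) (.92·.79·1.09 - .72) > 0`, contradiction.  A constant `t` with sum `1` is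
`1/n`. -/
def GT3 : Prop := GK1 → GK2 → GK3 → GLo → ∀ θ : ℝ, NF θ → ∀ n : ℕ, 3 ≤ n → ∀ t : Fin n → ℝ, IsMinT θ t →
  ∀ i, t i = 1 / (n : ℝ)

/-- (T2) `n = 2`: `aPAIR`, `r = 1/(2θ) > 1`: `G θ t = (π/2/sg) (a^r + b^r)^θ`; minimality against `(1/2,1/2)` gives
`a^r + b^r ≤ 2 (1/2)^r`, strict convexity of `x^r` gives `a = b`. (Valid for all `0 < θ < 1/2`.) -/
def GT2 : Prop := ∀ θ : ℝ, 0 < θ → θ < 1 / 2 → ∀ t : Fin 2 → ℝ, IsMinT θ t → ∀ i, t i = 1 / 2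

end Pool.Agent.Helper63.P705.NR
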